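import Pool.Agent.Lib.MP_ce3247_an.RmMain
import Pool.Agent.Lib.MP_ce3247_an.RmEx
import Pool.Agent.Lib.MP_ce3247_an.RmFin

/-! At a `k`-irrational class, Mather's beta function of the kinetic energy of a Riemannian metric
of class `C^∞` on `T^n` can be differentiable in at most `j` directions, whenever `j < k ≤ n` and
`(k - j) (n - 1) < (j - 1) (n - 3)`. -/

open MeasureTheory
open scoped ContDiff

namespace Pool.Agent.Results.MP_ce3247_an.RiemannianCorners

open Pool.Agent.Lib.MP_ce3247_an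

theorem result (n k j : ℕ) (hk : j < k) (hkn : k ≤ n)
    (hn : (k - j) * (n - 1) < (j - 1) * (n - 3)) :
    ∃ (g : Tor n → E n →L[ℝ] E n →L[ℝ] ℝ) (L : Phase n → ℝ) (Φ : ℝ → Phase n → Phase n) (h : E n),
      (∀ x v w, g x v w = g x w v) ∧ (∀ z, L z = g z.1 z.2.1 z.2.1 / 2) ∧ Tonelli 2 L Φ ∧
      (ContDiff ℝ ∞ fun z : E n × E n × ℝ => L (proj z.1 z.2.1 z.2.2)) ∧
      closure (Set.range fun m : ℤ => toTor ((m : ℝ) • h)) = subTor n k ∧
      closure (Set.range fun s : ℝ => toTor (s • h)) = subTor n k ∧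
      (∃ β : E n → ℝ, ConvexOn ℝ Set.univ β ∧ ∀ h', beta L Φ h' = β h') ∧
      (∀ m, j < m → ¬ DiffIn (beta L Φ) h m) ∧
      ∃ (b : ℝ) (l : E n) (c : Fin (n - j) → E n), beta L Φ h = b ∧ LinearIndependent ℝ c ∧
        (∀ h', ((b + ∑ t, l t * (h' t - h t) : ℝ) : EReal) ≤ beta L Φ h') ∧
        ∀ i h', ((b + ∑ t, (l t + c i t) * (h' t - h t) : ℝ) : EReal) ≤ beta L Φ h' := by
  obtain ⟨k, rfl⟩ : ∃ m, k = m + 1 := ⟨k - 1, by omega⟩
  obtain ⟨d, rfl⟩ : ∃ m, n = m + 1 := ⟨n - 1, by omega⟩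
  have hj : j - 1 ≠ 0 := fun h => by simp [h] at hn
  obtain ⟨j, rfl⟩ : ∃ m, j = m + 1 := ⟨j - 1, by omega⟩
  obtain ⟨B, f, c, r1, r2, f0, fi, hc, cf, pay⟩ :=
    Sm.exists_box (k := k) (d := d) (j := j) (by omega) (by omega) (by simpa using hn)
  obtain ⟨Φ, hT, hΦ, hl⟩ := B.met.exists_flow
  obtain ⟨θ, θ0, θ1, hθ⟩ := Sm.exists_gen f one_pos
  obtain ⟨s, s0, -, hs⟩ := Sm.exists_gen (Fin.cons 1 (θ • f) : E (d + 1)) one_pos
  set h : E (d + 1) := s • Fin.cons 1 (θ • f) with hh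
  obtain ⟨μ₁, m1, a1⟩ := r1.measure s0 (hT 0) hΦ hl
  obtain ⟨μ₂, m2, a2⟩ := r2.measure s0 (hT 0) hΦ hl
  obtain ⟨μ, hμ, a3⟩ := Minv.convex m1 m2 θ0.le θ1.le B.met.Lag_cont
  have e1 : θ • s • (Fin.cons 1 f : E (d + 1)) + (1 - θ) • s • (Fin.cons 1 0 : E (d + 1)) = h := by
    funext j
    refine Fin.cases ?_ (fun j => ?_) j <;> simp [hh] <;> ring
  rw [e1] at hμ
  choose ε hε hsub using fun i => (pay i).sub s0 (hT 0) hΦ
  have ei : d + 1 - (j + 1) = d - j := by omega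
  set c' : Fin (d + 1 - (j + 1)) → E (d + 1) := fun i =>
    Fin.cons 0 (ε (Fin.cast ei i) • c (Fin.cast ei i)) with hc'
  set l : E (d + 1) := Fin.cons s 0 with hl'
  have h0 : h 0 = s := mul_one s
  have k1 : ∀ h' : E (d + 1), ∑ j, l j * (h' j - h j) = s * h' 0 - s ^ 2 := fun h' => by
    simp [Fin.sum_univ_succ, hl', h0]
    ring
  have k2 : ∀ i (h' : E (d + 1)), ∑ j, c' i j * (h' j - h j) =
      ε (Fin.cast ei i) * ∑ j, c (Fin.cast ei i) j * h' j.succ := fun i h' => by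
    rw [← sub_zero (∑ j, c (Fin.cast ei i) j * h' j.succ), ← mul_zero (s * θ),
      ← cf (Fin.cast ei i), Finset.mul_sum, ← Finset.sum_sub_distrib, Finset.mul_sum,
      Fin.sum_univ_succ]
    simp only [hc', hh, Fin.cons_zero, zero_mul, zero_add, Fin.cons_succ, Pi.smul_apply,
      smul_eq_mul]
    exact Finset.sum_congr rfl fun j _ => by ring
  have b1 : ∀ h', ((s ^ 2 / 2 + ∑ j, l j * (h' j - h j) : ℝ) : EReal) ≤ beta B.met.Lag Φ h' :=
    fun h' => le_iInf₂ fun ν hν => EReal.coe_le_coe_iff.2 (by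
      obtain ⟨q1, q2⟩ := Box.sub_zero' (B := B) hν s
      rw [k1]
      linarith)
  have b2 : ∀ i h', ((s ^ 2 / 2 + ∑ j, (l j + c' i j) * (h' j - h j) : ℝ) : EReal) ≤
      beta B.met.Lag Φ h' := fun i h' => le_iInf₂ fun ν hν => EReal.coe_le_coe_iff.2 (by
    have q1 := (Box.sub_zero' (B := B) hν s).1
    have q2 := hsub (Fin.cast ei i) h' ν hν
    simp only [add_mul, Finset.sum_add_distrib, k1, k2]
    linarith)
  have b0 : beta B.met.Lag Φ h = (s ^ 2 / 2 : ℝ) := by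
    refine le_antisymm ((iInf₂_le μ hμ).trans (le_of_eq ?_)) (by simpa using b1 h)
    rw [a3, a1, a2]
    congr 1
    ring
  have ind : LinearIndependent ℝ c' := Fintype.linearIndependent_iff.2 fun g hg i => by
    have := Fintype.linearIndependent_iff.1 (hc.comp (Fin.cast ei) (Fin.cast_injective ei))
      (fun i => g i * ε (Fin.cast ei i)) (funext fun j => by
        simpa [hc', mul_assoc] using congrFun hg j.succ) i
    exact (mul_eq_zero.1 this).resolve_right (hε _).ne'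
  have z0 : ∀ j : Fin (d + 1), k + 1 ≤ j.val → h j = 0 := Fin.cases (fun q => by simp at q)
    fun j q => by simp [hh, f0 j (by simpa using q)]
  have zi : ∀ (q : Fin (d + 1) → ℤ) (m : ℤ), ∑ j, (q j : ℝ) * h j = m →
      ∀ j : Fin (d + 1), j.val < k + 1 → q j = 0 := fun q m hq => by
    have q1 := hs q m hq
    rw [Fin.sum_univ_succ, Fin.cons_zero, mul_one] at q1
    simp only [Fin.cons_succ] at q1
    have q2 := hθ (fun j => q j.succ) (-q 0) (by push_cast; linarith)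
    have q3 : ∑ j : Fin d, (q j.succ : ℝ) * (θ • f) j = θ * ∑ j : Fin d, (q j.succ : ℝ) * f j := by
      rw [Finset.mul_sum]
      exact Finset.sum_congr rfl fun j _ => by simp only [Pi.smul_apply, smul_eq_mul]; ring
    rw [q3, q2, mul_zero, add_zero] at q1
    exact Fin.cases (fun _ => by exact_mod_cast q1) fun j hj => fi _ q2 j (by simpa using hj)
  exact ⟨B.met.g, B.met.Lag, Φ, h, fun x v w => B.met.symm _ v w, fun _ => rfl, hT 2,
    contDiff_infty.2 fun r => (hT r).smooth, (kronecker z0 zi).1, (kronecker z0 zi).2,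
    B.met.beta_real (hT 0), fun m hm => not_diffIn' (by omega) ind b0 b1 b2, _, l, c', b0, ind,
    b1, b2⟩

end Pool.Agent.Results.MP_ce3247_an.RiemannianCorners
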