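import Pool.Agent.Lib.MP_ce3247_an.PolR
import Pool.Agent.Lib.MP_ce3247_an.KB
import Pool.Agent.Lib.MP_ce3247_an.Kron
import Pool.Agent.Lib.MP_ce3247_an.ToData
import Pool.Agent.Lib.MP_ce3247_an.Mk

/-! At a `k`-irrational class, Mather's beta function of a time-periodic Tonelli Lagrangian of
class `C^r` on `T^d` can be differentiable in at most `j` directions, whenever `2 ≤ r ≤ d`,
`j < k ≤ d` and `(k - j) (r + 2) < 2 d (j + 1)`. -/

open MeasureTheory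

namespace Pool.Agent.Results.MP_ce3247_an.SharpCorners

open Pool.Agent.Lib.MP_ce3247_an

theorem result (d k j r : ℕ) (hr : 2 ≤ r) (hrd : r ≤ d) (hk : j < k) (hkd : k ≤ d)
    (hn : (k - j) * (r + 2) < 2 * d * (j + 1)) :
    ∃ (L : Phase d → ℝ) (Φ : ℝ → Phase d → Phase d) (h : E d), Tonelli r L Φ ∧
      closure (Set.range fun n : ℤ => toTor ((n : ℝ) • h)) = subTor d k ∧
      closure (Set.range fun s : ℝ => toTor (s • h)) = subTor d k ∧
      (∃ b : E d → ℝ, ConvexOn ℝ Set.univ b ∧ ∀ h', beta L Φ h' = b h') ∧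
      (∀ m, j < m → ¬ DiffIn (beta L Φ) h m) ∧ beta L Φ h = 0 ∧ (∀ h', 0 ≤ beta L Φ h') ∧
      ∃ c : Fin (d - j) → E d, LinearIndependent ℝ c ∧
        ∀ i h', ((∑ t, c i t * (h' t - h t) : ℝ) : EReal) ≤ beta L Φ h' := by
  obtain ⟨S, G, h, g1, g2, g3, g4, g5, g6, g7, h0, hc0, hc, ha, hrot, hi⟩ :=
    exists_geo (s := k - j) (hr.trans hrd) (by omega) (by omega) hkd hrd
      (by rwa [show k + 1 - (k - j) = j + 1 by omega, mul_comm (j + 1)])
  obtain ⟨D, rfl, rfl⟩ := S.exists_data (j := j) hkd hr hrd (by omega) (by omega) G g1 g2 g3 g4 g5 g6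
    (by rwa [sq_abs]) h0 hc0 hc ha hrot
  have ei : d - j = d - (j + 1) + 1 := by omega
  obtain ⟨Φ, hT, hcont, ho⟩ := D.exists_flow
  obtain ⟨μ, hμ, hz⟩ := D.exists_measure hcont ho
  have h1 : ∀ h', 0 ≤ beta D.Lag Φ h' := fun h' =>
    le_iInf₂ fun ν _ => EReal.coe_nonneg.2 (integral_nonneg D.Lag_nonneg)
  have h2 : ∀ i h', ((∑ j, D.c i j * (h' j - D.h j) : ℝ) : EReal) ≤ beta D.Lag Φ h' :=
    fun i h' => le_iInf₂ fun ν hν => EReal.coe_le_coe_iff.2 (D.sub_le hT hcont hν i)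
  have h3 : beta D.Lag Φ D.h = 0 := by
    refine le_antisymm ?_ (h1 _)
    refine (iInf₂_le μ hμ).trans ?_
    rw [hz]; rfl
  exact ⟨D.Lag, Φ, D.h, hT, (kronecker h0 hi).1, (kronecker h0 hi).2, D.beta_real hT,
    fun m hm => not_diffIn (by omega) D.c_ind h3 h1 h2, h3, h1, D.c ∘ Fin.cast ei,
    D.c_ind.comp _ (Fin.cast_injective ei), fun i => h2 _⟩

end Pool.Agent.Results.MP_ce3247_an.SharpCorners
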