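import Pool.Agent.Lib.MP_ce3247_an.Sm.Fin

/-! At a `k`-irrational class, Mather's beta function of a time-periodic Tonelli Lagrangian of
class `C^∞` on `T^d` can be differentiable in at most `j` directions, whenever `j < k ≤ d` and
`(k - j) d < j (d - 2)`. -/

open MeasureTheory
open scoped ContDiff

namespace Pool.Agent.Results.MP_ce3247_an.SmoothCorners

open Pool.Agent.Lib.MP_ce3247_an

theorem result (d k j : ℕ) (hk : j < k) (hkd : k ≤ d) (hd : (k - j) * d < j * (d - 2)) :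
    ∃ (L : Phase d → ℝ) (Φ : ℝ → Phase d → Phase d) (h : E d), Tonelli 2 L Φ ∧
      (ContDiff ℝ ∞ fun z : E d × E d × ℝ => L (proj z.1 z.2.1 z.2.2)) ∧
      closure (Set.range fun n : ℤ => toTor ((n : ℝ) • h)) = subTor d k ∧
      closure (Set.range fun s : ℝ => toTor (s • h)) = subTor d k ∧
      (∃ b : E d → ℝ, ConvexOn ℝ Set.univ b ∧ ∀ h', beta L Φ h' = b h') ∧
      (∀ m, j < m → ¬ DiffIn (beta L Φ) h m) ∧ beta L Φ h = 0 ∧ (∀ h', 0 ≤ beta L Φ h') ∧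
      ∃ c : Fin (d - j) → E d, LinearIndependent ℝ c ∧
        ∀ i h', ((∑ t, c i t * (h' t - h t) : ℝ) : EReal) ≤ beta L Φ h' := by
  obtain ⟨D, Φ, h, c, hT, h0, hi, ⟨μ, hμ, hz⟩, hc, hs⟩ := Sm.main hk hkd hd
  have h1 : ∀ h', 0 ≤ beta D.Lag Φ h' := fun h' =>
    le_iInf₂ fun ν _ => EReal.coe_nonneg.2 (integral_nonneg D.Lag_nonneg)
  have h2 : ∀ i h', ((∑ j, c i j * (h' j - h j) : ℝ) : EReal) ≤ beta D.Lag Φ h' :=
    fun i h' => le_iInf₂ fun ν hν => EReal.coe_le_coe_iff.2 (hs i h' ν hν)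
  have h3 : beta D.Lag Φ h = 0 := by
    refine le_antisymm ?_ (h1 _)
    refine (iInf₂_le μ hμ).trans ?_
    rw [hz]; rfl
  exact ⟨D.Lag, Φ, h, hT 2, contDiff_infty.2 fun r => (hT r).smooth, (kronecker h0 hi).1,
    (kronecker h0 hi).2, D.beta_real (hT 0), fun m hm => not_diffIn (by omega) hc h3 h1 h2, h3, h1,
    c, hc, h2⟩

end Pool.Agent.Results.MP_ce3247_an.SmoothCorners
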